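import Mathlib
import Pool.Agent.H906R3.YM.Conc
import Pool.Agent.W793.YM.GLim
import Pool.Agent.W793.SCH.All
import Pool.Agent.TH940.YM.Tor2
import Pool.Agent.TH940.YM.Smooth
import Pool.Agent.TH500.YM_WICK
import Pool.Agent.TH311.YM_INV
import Pool.Agent.TH311.YM_KERJ

/-!
# Lattice Yang-Mills theory: the Schwinger functions of all gauge invariant local polynomials

Wilson's lattice gauge theory in dimension `d ≥ 3` with gauge group an arbitrary closed subgroup `G`
of `U(N)` at the inverse coupling `β`, on the periodic lattices `(ℤ/l)^d` with `l ≥ β` even and in all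
their infinite volume limits. The lattice field strength `F_{jk}(x)` is the orthogonal projection of
`√β U_{jk}(x)` to the Lie algebra, `U_{jk}(x)` being the plaquette variable, and `D_i` is the covariant
lattice derivative. The gauge invariant local monomials in `F` and its covariant derivatives are
`T(D^{J_1} F_{p_1}(x), ..., D^{J_m} F_{p_m}(x))`, where `T` is any multilinear form which is invariant
under the adjoint action of `G`, for example `T(A_1, ..., A_m) = Re tr A_1 ... A_m`; they are Wick
ordered with the explicit covariances of the lattice Maxwell field, which do not depend on `β`. For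
every choice of `k` such fields there is an exponent `K` such that, as the lattice spacing `1/q` tends
to zero and uniformly in `β ≥ q ^ K`, in the volume and in the infinite volume limit, their
`k`-point functions at distinct points of `ℝ^d`, multiplied by `q ^ (d/2 + |J|)` for every factor
`D^J F`, converge to the explicit `k`-point functions of the same Wick ordered polynomials in `dim G`
independent free Maxwell fields and their derivatives.
-/

open MeasureTheory Matrix Filter
open scoped Matrix.Norms.Frobenius Topology ContDiff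

namespace Pool.Agent.Results.MP_7f377f_mp.LocalPolynomials

set_option linter.unusedSectionVars false

noncomputable section

/-- Complex `N × N` matrices. -/
abbrev Mt (N : ℕ) := Matrix (Fin N) (Fin N) ℂ

/-- The unitary group `U(N)`. -/
abbrev UU (N : ℕ) := Matrix.unitaryGroup (Fin N) ℂ

/-- The matrix of an element of a subgroup of `U(N)`. -/
def mt {N : ℕ} {G : Subgroup (UU N)} (g : G) : Mt N := ((g : UU N) : Mt N)

/-- An orthonormal basis `X` of the Lie algebra of `G`, that is of the real space of all matrices `Y`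
with `exp (t Y) ∈ G` for all real `t`, with the scalar product `Re tr (Y* Z)`; `ex a t` is the
element `exp (t X_a)` of `G`. -/
structure LieBasis {N : ℕ} (G : Subgroup (UU N)) (n : ℕ) where
  X : Fin n → Mt N
  ex : Fin n → ℝ → G
  ex_eq : ∀ a t, mt (ex a t) = NormedSpace.exp (t • X a)
  orth : ∀ a b, (trace ((X a)ᴴ * X b)).re = if a = b then 1 else 0
  full : ∀ Y : Mt N, (∀ t : ℝ, ∃ g : G, mt g = NormedSpace.exp (t • Y)) →
    Y ∈ Submodule.span ℝ (Set.range X)

/-- Links of the periodic lattice `(ℤ/l)^d`: base point and direction. -/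
abbrev Link (d l : ℕ) := (Fin d → ZMod l) × Fin d

/-- Links of the lattice `ℤ^d`: base point and direction. -/
abbrev LinkZ (d : ℕ) := (Fin d → ℤ) × Fin d

section

variable {N n d l : ℕ} {G : Subgroup (UU N)}

/-- The product of the link variables around the plaquette at `x` in the directions `i`, `j`. -/
def plaq (U : Link d l → G) (x : Fin d → ZMod l) (i j : Fin d) : G :=
  U (x, i) * U (x + Pi.single i 1, j) * (U (x + Pi.single j 1, i))⁻¹ * (U (x, j))⁻¹

/-- The Wilson action `∑_p Re tr (1 - U_p)`, the sum over the plaquettes. -/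
def action [NeZero l] (U : Link d l → G) : ℝ :=
  ∑ x : Fin d → ZMod l, ∑ i : Fin d, ∑ j : Fin d,
    if i < j then (trace (1 - mt (plaq U x i j))).re else 0

/-- The periodic extension of a configuration. -/
def per (U : Link d l → G) : LinkZ d → G := fun e => U (fun i => (e.1 i : ZMod l), e.2)

/-- The expectation of `F` in the lattice Yang-Mills theory on `(ℤ/l)^d`, `μ` being the Haar
measure. -/
def expect (l : ℕ) [NeZero l] [MeasurableSpace G] (μ : Measure G) (β : ℝ)
    (F : (LinkZ d → G) → ℝ) : ℝ :=
  (∫ U : Link d l → G, F (per U) * Real.exp (-(β * action U)) ∂(Measure.pi fun _ => μ)) /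
    ∫ U : Link d l → G, Real.exp (-(β * action U)) ∂(Measure.pi fun _ => μ)

/-- `ν` is an infinite volume limit (weak limit along a subsequence) of the theories on the tori of
even side at inverse coupling `β`. -/
structure IsInfVol [MeasurableSpace G] (μ : Measure G) (β : ℝ)
    (ν : Measure (LinkZ d → G)) : Prop where
  prob : IsProbabilityMeasure ν
  lim : ∃ s : ℕ → ℕ, Tendsto s atTop atTop ∧ ∀ F : (LinkZ d → G) → ℝ, Continuous F →
    Tendsto (fun j => expect (2 * (s j + 1)) μ β F) atTop (𝓝 (∫ V, F V ∂ν))

/-- The plaquette variable of a configuration on `ℤ^d`. -/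
def plaqZ (V : LinkZ d → G) (x : Fin d → ℤ) (i j : Fin d) : G :=
  V (x, i) * V (x + Pi.single i 1, j) * (V (x + Pi.single j 1, i))⁻¹ * (V (x, j))⁻¹

/-- Gauge transformations. -/
def gauge (γ : (Fin d → ℤ) → G) (V : LinkZ d → G) : LinkZ d → G :=
  fun e => γ e.1 * V e * (γ (e.1 + Pi.single e.2 1))⁻¹

/-- The lattice field strength `F_p(x)`, `p = (j, k)`: the orthogonal projection of `√β U_{jk}(x)` to
the Lie algebra. -/
def strength (B : LieBasis G n) (β : ℝ) (V : LinkZ d → G) (p : Fin d × Fin d) (x : Fin d → ℤ) :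
    Mt N :=
  ∑ a, (Real.sqrt β * (trace ((B.X a)ᴴ * mt (plaqZ V x p.1 p.2))).re) • B.X a

/-- The iterated covariant lattice derivatives in the directions of the list,
`(D_i Φ)(x) = V(x,i) Φ(x + e_i) V(x,i)* - Φ(x)`. -/
def covs (V : LinkZ d → G) : List (Fin d) → ((Fin d → ℤ) → Mt N) → (Fin d → ℤ) → Mt N
  | [], Φ => Φ
  | i :: J, Φ => fun x =>
      mt (V (x, i)) * covs V J Φ (x + Pi.single i 1) * (mt (V (x, i)))ᴴ - covs V J Φ x

end

section

variable {d : ℕ}

/-! ### The lattice Maxwell field -/

/-- The transition probabilities of the lazy random walk on `ℤ^d`. -/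
def walk (d : ℕ) : ℕ → (Fin d → ℤ) → ℝ
  | 0, z => if z = 0 then 1 else 0
  | k + 1, z => 1 / 2 * walk d k z + 1 / (4 * d : ℝ) *
      ∑ i, (walk d k (z + Pi.single i 1) + walk d k (z - Pi.single i 1))

/-- The Green function of the lattice Laplacian on `ℤ^d`. -/
def green (d : ℕ) (z : Fin d → ℤ) : ℝ := 1 / (4 * d : ℝ) * ∑' k, walk d k z

/-- The mixed second difference of the Green function, forward in the direction `j`, backward in the
direction `l`. -/
def mixed (j l : Fin d) (z : Fin d → ℤ) : ℝ :=
  green d (z + Pi.single j 1) - green d z - green d (z + Pi.single j 1 - Pi.single l 1) +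
    green d (z - Pi.single l 1)

/-- The two-point function `⟨F_p(z) F_{p'}(0)⟩` of the lattice Maxwell field. -/
def latMaxwell (p p' : Fin d × Fin d) (z : Fin d → ℤ) : ℝ :=
  -(if p.2 = p'.2 then mixed p.1 p'.1 z else 0) + (if p.2 = p'.1 then mixed p.1 p'.2 z else 0) +
    (if p.1 = p'.2 then mixed p.2 p'.1 z else 0) - (if p.1 = p'.1 then mixed p.2 p'.2 z else 0)

/-- Iterated forward differences in the directions of the list. -/
def fdiff : List (Fin d) → ((Fin d → ℤ) → ℝ) → (Fin d → ℤ) → ℝ
  | [], g => g
  | i :: J, g => fun z => fdiff J g (z + Pi.single i 1) - fdiff J g z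

/-- Iterated forward differences with respect to `y` of a function of `x - y`, as a function of
`z = x - y`. -/
def bdiff : List (Fin d) → ((Fin d → ℤ) → ℝ) → (Fin d → ℤ) → ℝ
  | [], g => g
  | i :: J, g => fun z => bdiff J g (z - Pi.single i 1) - bdiff J g z

/-- The covariance `⟨∂^J F_p(0) ∂^{J'} F_{p'}(0)⟩` of the lattice Maxwell field. -/
def latCov (J : List (Fin d)) (p : Fin d × Fin d) (J' : List (Fin d)) (p' : Fin d × Fin d) : ℝ :=
  fdiff J (bdiff J' (latMaxwell p p')) 0

/-- The Wick product of the variables `X u`, `u ∈ l`, for the covariance `A`: `:1: = 1` and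
`:X_a X_l: = X_a :X_l: - ∑_{i ∈ l} A a i :X_{l ∖ i}:`. -/
def wick {ι : Type*} (A : ι → ι → ℝ) (X : ι → ℝ) : List ι → ℝ
  | [] => 1
  | a :: l => X a * wick A X l - ∑ i : Fin l.length, A a (l.get i) * wick A X (l.eraseIdx i)
termination_by l => l.length
decreasing_by
  · simp
  · simp only [List.length_cons]
    have := List.length_eraseIdx_of_lt i.isLt
    omega

end

/-! ### The local fields -/

/-- A gauge invariant local monomial `T(D^{J_1} F_{p_1}, ..., D^{J_m} F_{p_m})` of degree `m = deg` in
the field strength and its covariant derivatives: a list of directions `J_j` and a plane `p_j` for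
every factor, and a multilinear form `T` on the matrices which is invariant under the conjugation
with the elements of `G`. -/
structure Monomial {N : ℕ} (G : Subgroup (UU N)) (d : ℕ) where
  deg : ℕ
  J : Fin deg → List (Fin d)
  p : Fin deg → Fin d × Fin d
  plane : ∀ j, (p j).1 ≠ (p j).2
  T : MultilinearMap ℝ (fun _ : Fin deg => Mt N) ℝ
  inv : ∀ (g : G) (A : Fin deg → Mt N), T (fun j => mt g * A j * (mt g)ᴴ) = T A

section

variable {N n d : ℕ} {G : Subgroup (UU N)}

/-- The local field `T(D^{J_1} F_{p_1}(x), ..., D^{J_m} F_{p_m}(x))` without Wick ordering. -/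
def Monomial.bare (O : Monomial G d) (B : LieBasis G n) (β : ℝ) (x : Fin d → ℤ)
    (V : LinkZ d → G) : ℝ :=
  O.T fun j => covs V (O.J j) (strength B β V (O.p j)) x

/-- The local field `:T(D^{J_1} F_{p_1}(x), ..., D^{J_m} F_{p_m}(x)):`, Wick ordered with the
covariance `C` of the factors: the expansion of the multilinear form in the components of its
arguments with respect to the orthonormal basis, with Wick products in place of the products; the
covariance of components of different colours is `0`. -/
def Monomial.ordered (O : Monomial G d) (B : LieBasis G n) (β : ℝ)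
    (C : List (Fin d) → Fin d × Fin d → List (Fin d) → Fin d × Fin d → ℝ) (x : Fin d → ℤ)
    (V : LinkZ d → G) : ℝ :=
  ∑ c : Fin O.deg → Fin n, O.T (fun j => B.X (c j)) *
    wick (fun i j => if c i = c j then C (O.J i) (O.p i) (O.J j) (O.p j) else 0)
      (fun j => (trace ((B.X (c j))ᴴ * covs V (O.J j) (strength B β V (O.p j)) x)).re)
      (List.finRange O.deg)

/-- The Wick ordered local field. -/
def Monomial.field (O : Monomial G d) (B : LieBasis G n) (β : ℝ) (x : Fin d → ℤ)
    (V : LinkZ d → G) : ℝ := O.ordered B β latCov x V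

/-- The scaling factor `q ^ Δ` of the local field, `Δ = ∑_j (d / 2 + |J_j|)` being its dimension. -/
def Monomial.scale (O : Monomial G d) (q : ℕ) : ℝ :=
  ∏ j, (Real.sqrt q ^ d * (q : ℝ) ^ (O.J j).length)

end

section

variable {d : ℕ}

/-! ### The limit -/

/-- The lattice point next to `x` on the lattice with spacing `1/q`, in lattice units. -/
def lat (q : ℕ) (x : Fin d → ℝ) : Fin d → ℤ := fun i => ⌊(q : ℝ) * x i⌋

/-- The second derivative `∂_j ∂_l` of the Green function of `-Δ` on `ℝ^d`. -/
def hess (j l : Fin d) (x : Fin d → ℝ) : ℝ :=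
  Real.Gamma ((d : ℝ) / 2) / (2 * Real.pi ^ ((d : ℝ) / 2)) * (∑ i, x i ^ 2) ^ (-((d : ℝ) / 2)) *
    (d * x j * x l / (∑ i, x i ^ 2) - if j = l then 1 else 0)

/-- The two-point function `⟨F_p(x) F_{p'}(0)⟩` of the free Maxwell field on `ℝ^d`. -/
def maxwell (p p' : Fin d × Fin d) (x : Fin d → ℝ) : ℝ :=
  -(if p.2 = p'.2 then hess p.1 p'.1 x else 0) + (if p.2 = p'.1 then hess p.1 p'.2 x else 0) +
    (if p.1 = p'.2 then hess p.2 p'.1 x else 0) - (if p.1 = p'.1 then hess p.2 p'.2 x else 0)

/-- Iterated partial derivatives in the directions of the list. -/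
def pderiv : List (Fin d) → ((Fin d → ℝ) → ℝ) → (Fin d → ℝ) → ℝ
  | [], f => f
  | i :: J, f => fun x => deriv (fun t : ℝ => pderiv J f (x + Pi.single i t)) 0

/-- The two-point function `⟨∂^J F_p(x) ∂^{J'} F_{p'}(0)⟩` of the derivatives of the free Maxwell
field on `ℝ^d`. -/
def maxwellD (J : List (Fin d)) (p : Fin d × Fin d) (J' : List (Fin d)) (p' : Fin d × Fin d)
    (x : Fin d → ℝ) : ℝ :=
  (-1) ^ J'.length * pderiv (J ++ J') (maxwell p p') x

/-- The sum over all pairings of the elements of the list of the products of the entries `A`. -/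
def pairings {ι : Type*} (A : ι → ι → ℝ) : List ι → ℝ
  | [] => 1
  | a :: l => ∑ i : Fin l.length, A a (l.get i) * pairings A (l.eraseIdx i)
termination_by l => l.length
decreasing_by
  simp only [List.length_cons]
  have := List.length_eraseIdx_of_lt i.isLt
  omega

/-- The factors of `k` fields, the field `r` being of degree `m r`. -/
def factors {k : ℕ} (m : Fin k → ℕ) : List ((r : Fin k) × Fin (m r)) :=
  (List.finRange k).flatMap fun r => (List.finRange (m r)).map (Sigma.mk r)

end

/-- The `k`-point function of the Wick ordered fields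
`:T_r(∂^{J_1} F_{p_1}(x_r), ..., ∂^{J_m} F_{p_m}(x_r)):` for `n` independent free Maxwell fields: the
sum over the colours of all factors and over the pairings of the factors in which no two factors of
the same field are paired. -/
def schwinger {N n d k : ℕ} {G : Subgroup (UU N)} (B : LieBasis G n) (O : Fin k → Monomial G d)
    (x : Fin k → Fin d → ℝ) : ℝ :=
  ∑ c : (r : Fin k) → Fin (O r).deg → Fin n, (∏ r, (O r).T fun j => B.X (c r j)) *
    pairings (fun u v => if u.1 = v.1 then 0 else if c u.1 u.2 = c v.1 v.2 then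
      maxwellD ((O u.1).J u.2) ((O u.1).p u.2) ((O v.1).J v.2) ((O v.1).p v.2) (x u.1 - x v.1)
      else 0) (factors fun r => (O r).deg)

open Pool.Agent Pool.Agent.H906R3 Pool.Agent.W793

variable {N n d l : ℕ} {G : Subgroup (UU N)}

/-- The same data in the form used by the helper files. -/
def fm (B : LieBasis G n) : YM.Frame G n where
  X := B.X
  ex := B.ex
  ex_eq := B.ex_eq
  orth := B.orth
  full := B.full

/-- The abstract data. -/
def ld (B : LieBasis G n) : YM.LD G N n := (fm B).toLD

lemma action_eq [NeZero l] (B : LieBasis G n) (U : Link d l → G) :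
    action U = YM.act (ld B) U := rfl

/-- A Haar probability measure is invariant under right multiplications. -/
lemma right_inv {H : Type*} [Group H] [TopologicalSpace H] [IsTopologicalGroup H]
    [CompactSpace H] [MeasurableSpace H] [BorelSpace H] (μ : Measure H)
    [IsProbabilityMeasure μ] [μ.IsHaarMeasure] : μ.IsMulRightInvariant := by
  refine ⟨fun g => ?_⟩
  have h1 : IsProbabilityMeasure (Measure.map (fun x => x * g) μ) :=
    Measure.isProbabilityMeasure_map (measurable_mul_const g).aemeasurable
  exact Measure.isHaarMeasure_eq_of_isProbabilityMeasure _ _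

/-- A Haar probability measure is invariant under the inversion. -/
lemma inv_inv' {H : Type*} [Group H] [TopologicalSpace H] [IsTopologicalGroup H]
    [CompactSpace H] [MeasurableSpace H] [BorelSpace H] (μ : Measure H)
    [IsProbabilityMeasure μ] [μ.IsHaarMeasure] : μ.IsInvInvariant := by
  have hr := right_inv μ
  refine ⟨?_⟩
  have h1 : IsProbabilityMeasure μ.inv :=
    Measure.isProbabilityMeasure_map measurable_inv.aemeasurable
  have h2 : μ.inv.IsMulLeftInvariant := inferInstance
  have h3 : μ.inv.IsHaarMeasure :=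
    Measure.isHaarMeasure_of_isCompact_nonempty_interior μ.inv Set.univ isCompact_univ
      (by simp) (by simp) (by simp)
  exact Measure.isHaarMeasure_eq_of_isProbabilityMeasure _ _

section bridge

variable [CompactSpace G] [SecondCountableTopology G] [MeasurableSpace G] [BorelSpace G]
  (μ : Measure G) [IsProbabilityMeasure μ] [μ.IsHaarMeasure] (B : LieBasis G n)

lemma expect_eq [NeZero l] (β : ℝ) (F : (LinkZ d → G) → ℝ) : expect l μ β F =
    YM.EX μ (ld B) β (fun U : YM.Ed d l → G => F (YM.lf U)) := by
  unfold expect YM.EX YM.Zt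
  simp only [one_mul]
  rfl

include B in
lemma action_cont [NeZero l] : Continuous (action : (Link d l → G) → ℝ) :=
  YM.act_cont (L := ld B)

include B in
/-- existence of infinite volume limits -/
lemma exists_infVol (β : ℝ) : ∃ ν : Measure (LinkZ d → G), IsInfVol μ β ν := by
  have hP : ∀ j : ℕ, ∃ P : ProbabilityMeasure (LinkZ d → G),
      ∀ F : (LinkZ d → G) → ℝ, Continuous F →
        ∫ V, F V ∂(P : Measure (LinkZ d → G)) = expect (2 * (j + 1)) μ β F := by
    intro j
    have hper : Continuous (per : (Link d (2 * (j + 1)) → G) → LinkZ d → G) :=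
      continuous_pi fun e => continuous_apply _
    have hexp : Continuous fun U : Link d (2 * (j + 1)) → G =>
        Real.exp (-(β * action U)) :=
      Real.continuous_exp.comp (continuous_const.mul (action_cont B)).neg
    have hint : Integrable (fun U : Link d (2 * (j + 1)) → G =>
        Real.exp (-(β * action U))) (Measure.pi fun _ => μ) :=
      hexp.integrable_of_hasCompactSupport (HasCompactSupport.of_compactSpace _)
    have h1 := isProbabilityMeasure_tilted (f := fun U : Link d (2 * (j + 1)) → G =>
      -(β * action U)) hint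
    refine ⟨⟨((Measure.pi fun _ => μ).tilted fun U : Link d (2 * (j + 1)) → G =>
      -(β * action U)).map per, Measure.isProbabilityMeasure_map hper.aemeasurable⟩,
      fun F hF => ?_⟩
    show ∫ V, F V ∂(((Measure.pi fun _ => μ).tilted fun U : Link d (2 * (j + 1)) → G =>
      -(β * action U)).map per) = _
    rw [integral_map hper.aemeasurable hF.aestronglyMeasurable, integral_tilted]
    unfold expect
    rw [← integral_div]
    refine integral_congr_ae (Filter.Eventually.of_forall fun U => ?_)
    simp only [smul_eq_mul]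
    ring
  choose P hP using hP
  obtain ⟨ν, s, hs, hlim⟩ := CompactSpace.tendsto_subseq P
  refine ⟨ν, ⟨inferInstance, s, hs.tendsto_atTop, fun F hF => ?_⟩⟩
  have h1 := (ProbabilityMeasure.tendsto_iff_forall_integral_tendsto.1 hlim)
    (BoundedContinuousFunction.mkOfCompact ⟨F, hF⟩)
  simp only [Function.comp_apply, BoundedContinuousFunction.mkOfCompact_apply,
    ContinuousMap.coe_mk] at h1
  simpa only [hP _ F hF] using h1

end bridge

/-! ### Comparison of the definitions -/

lemma pairings_eq {ι : Type*} (A : ι → ι → ℝ) (m : ℕ) : ∀ L : List ι, L.length ≤ m →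
    pairings A L = SCH.haf A L := by
  induction m with
  | zero =>
    intro L hL
    have : L = [] := List.length_eq_zero_iff.1 (by omega)
    subst this
    simp only [pairings, SCH.haf]
  | succ m ih =>
    intro L hL
    cases L with
    | nil => simp only [pairings, SCH.haf]
    | cons a L =>
      simp only [pairings, SCH.haf]
      refine Finset.sum_congr rfl fun i _ => ?_
      rw [ih]
      have h1 := List.length_eraseIdx_of_lt i.isLt
      simp only [List.length_cons] at hL
      omega


lemma wick_eq {ι : Type*} (A : ι → ι → ℝ) (X : ι → ℝ) (m : ℕ) : ∀ L : List ι, L.length ≤ m →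
    wick A X L = TH940.YM.wpr A X L := by
  induction m with
  | zero =>
    intro L hL
    have : L = [] := List.length_eq_zero_iff.1 (by omega)
    subst this
    simp only [wick, TH940.YM.wpr]
  | succ m ih =>
    intro L hL
    cases L with
    | nil => simp only [wick, TH940.YM.wpr]
    | cons a L =>
      simp only [wick, TH940.YM.wpr]
      simp only [List.length_cons] at hL
      rw [ih L (by omega)]
      congr 1
      refine Finset.sum_congr rfl fun i _ => ?_
      rw [ih]
      have h1 := List.length_eraseIdx_of_lt i.isLt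
      omega

lemma wick_zero {ι : Type*} {A : ι → ι → ℝ} (hA : ∀ u v, A u v = 0) (X : ι → ℝ) :
    ∀ L : List ι, wick A X L = (L.map X).prod := by
  intro L
  induction L with
  | nil => simp only [wick, List.map_nil, List.prod_nil]
  | cons a L ih =>
    simp only [wick, List.map_cons, List.prod_cons, ih, hA, zero_mul, Finset.sum_const_zero,
      sub_zero]

lemma walk_eq (d k : ℕ) (z : Fin d → ℤ) : walk d k z = SCH.pk d k z := by
  induction k generalizing z with
  | zero => rfl
  | succ k ih => simp only [walk, SCH.pk, ih]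

lemma green_eq (d : ℕ) : green d = SCH.green d := by
  funext z
  unfold green SCH.green
  simp only [walk_eq]

lemma fdiff_eq (J : List (Fin d)) (g : (Fin d → ℤ) → ℝ) : fdiff J g = TH940.YM.dF J g := by
  induction J with
  | nil => rfl
  | cons i J ih => simp only [fdiff, TH940.YM.dF, ih]

lemma bdiff_eq (J : List (Fin d)) (g : (Fin d → ℤ) → ℝ) : bdiff J g = TH940.YM.dB J g := by
  induction J with
  | nil => rfl
  | cons i J ih => simp only [bdiff, TH940.YM.dB, ih]

lemma pderiv_eq (J : List (Fin d)) (f : (Fin d → ℝ) → ℝ) : pderiv J f = TH940.YM.pD J f := by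
  induction J with
  | nil => rfl
  | cons i J ih => simp only [pderiv, TH940.YM.pD, ih]

lemma latCov_eq (J : List (Fin d)) (p : Fin d × Fin d) (J' : List (Fin d))
    (p' : Fin d × Fin d) : latCov J p J' p' = TH940.YM.mcD (SCH.green d) J p J' p' 0 := by
  unfold latCov TH940.YM.mcD
  rw [fdiff_eq, bdiff_eq]
  congr 2
  funext z
  unfold latMaxwell mixed
  rw [green_eq]
  rfl

lemma maxwellD_eq (J : List (Fin d)) (p : Fin d × Fin d) (J' : List (Fin d))
    (p' : Fin d × Fin d) {x : Fin d → ℝ} (hx : x ≠ 0) : maxwellD J p J' p' x = (-1) ^ J'.length *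
      SCH.mx (fun a b => TH940.YM.pD (J ++ J') (SCH.hess d a b) x) p.1 p.2 p'.1 p'.2 := by
  unfold maxwellD
  rw [pderiv_eq]
  congr 1
  exact TH940.YM.pD_mx (f := fun a b => SCH.hess d a b)
    (fun a b x hx => TH940.YM.hess_smooth a b hx) p.1 p.2 p'.1 p'.2 (J ++ J') x hx

section coordinates

variable [CompactSpace G] [SecondCountableTopology G] [MeasurableSpace G] [BorelSpace G]
  (B : LieBasis G n)

/-- the components of the covariant derivatives of the field strength -/
def cZ (β : ℝ) (V : LinkZ d → G) (p : Fin d × Fin d) :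
    List (Fin d) → (Fin d → ℤ) → Fin n → ℝ
  | [] => fun x a => Real.sqrt β * (trace ((B.X a)ᴴ * mt (plaqZ V x p.1 p.2))).re
  | i :: J => fun x a => ∑ b, (ld B).adm (V (x, i)) a b * cZ β V p J (x + Pi.single i 1) b -
      cZ β V p J x a

lemma covs_eq (β : ℝ) (V : LinkZ d → G) (p : Fin d × Fin d) (J : List (Fin d)) (x : Fin d → ℤ) :
    covs V J (strength B β V p) x = ∑ a, cZ B β V p J x a • B.X a := by
  induction J generalizing x with
  | nil => rfl
  | cons i J ih =>
    have h1 : ∀ b, mt (V (x, i)) * B.X b * (mt (V (x, i)))ᴴ =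
        ∑ a, (ld B).adm (V (x, i)) a b • B.X a := fun b => YM.conj_eq (L := ld B) (V (x, i)) b
    show mt (V (x, i)) * covs V J (strength B β V p) (x + Pi.single i 1) * (mt (V (x, i)))ᴴ -
      covs V J (strength B β V p) x = ∑ a, (∑ b, (ld B).adm (V (x, i)) a b *
        cZ B β V p J (x + Pi.single i 1) b - cZ B β V p J x a) • B.X a
    rw [ih, ih, Finset.mul_sum, Finset.sum_mul]
    simp only [sub_smul, Finset.sum_sub_distrib, Finset.sum_smul]
    congr 1
    rw [Finset.sum_comm]
    refine Finset.sum_congr rfl fun b _ => ?_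
    rw [mul_smul_comm, smul_mul_assoc, h1, Finset.smul_sum]
    refine Finset.sum_congr rfl fun a _ => ?_
    rw [smul_smul, mul_comm]

lemma comp_eq (β : ℝ) (V : LinkZ d → G) (p : Fin d × Fin d) (J : List (Fin d)) (x : Fin d → ℤ)
    (a : Fin n) : (trace ((B.X a)ᴴ * covs V J (strength B β V p) x)).re = cZ B β V p J x a := by
  rw [covs_eq, Finset.mul_sum, trace_sum, Complex.re_sum]
  rw [Finset.sum_eq_single a]
  · rw [mul_smul_comm, trace_smul, Complex.smul_re, B.orth, if_pos rfl, smul_eq_mul, mul_one]
  · intro b _ hb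
    rw [mul_smul_comm, trace_smul, Complex.smul_re, B.orth, if_neg (fun h => hb h.symm),
      smul_eq_mul, mul_zero]
  · intro h; exact absurd (Finset.mem_univ _) h

lemma ordered_eq (O : Monomial G d) (β : ℝ)
    (C : List (Fin d) → Fin d × Fin d → List (Fin d) → Fin d × Fin d → ℝ) (x : Fin d → ℤ)
    (V : LinkZ d → G) : O.ordered B β C x V =
      TH940.YM.WT (fun i j => C (O.J i) (O.p i) (O.J j) (O.p j)) (fun c => O.T fun j => B.X (c j))
        (fun j a => cZ B β V (O.p j) (O.J j) x a) := by
  unfold Monomial.ordered TH940.YM.WT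
  refine Finset.sum_congr rfl fun c _ => ?_
  rw [wick_eq _ _ _ _ le_rfl]
  simp only [comp_eq]

lemma T_inv (O : Monomial G d) (g : G) (c : Fin O.deg → Fin n) :
    (O.T fun j => B.X (c j)) = ∑ b : Fin O.deg → Fin n, (∏ j, (ld B).adm g (b j) (c j)) *
      O.T fun j => B.X (b j) := by
  classical
  have h1 : ∀ b, mt g * B.X b * (mt g)ᴴ = ∑ a, (ld B).adm g a b • B.X a :=
    fun b => YM.conj_eq (L := ld B) g b
  rw [← O.inv g]
  simp only [h1]
  rw [MultilinearMap.map_sum]
  refine Finset.sum_congr rfl fun b _ => ?_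
  rw [MultilinearMap.map_smul_univ, smul_eq_mul]

lemma bare_eq (O : Monomial G d) (β : ℝ) (x : Fin d → ℤ) (V : LinkZ d → G) :
    O.ordered B β (fun _ _ _ _ => 0) x V = O.bare B β x V := by
  classical
  have h1 : (fun j => covs V (O.J j) (strength B β V (O.p j)) x) =
      fun j => ∑ a, cZ B β V (O.p j) (O.J j) x a • B.X a := funext fun j => covs_eq B _ _ _ _ _
  unfold Monomial.bare Monomial.ordered
  simp only [comp_eq]
  rw [h1, MultilinearMap.map_sum]
  refine Finset.sum_congr rfl fun c _ => ?_
  rw [MultilinearMap.map_smul_univ, smul_eq_mul, mul_comm]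
  congr 1
  rw [wick_zero (fun u v => by split_ifs <;> rfl)]
  rw [← List.ofFn_eq_map, List.prod_ofFn]

lemma cZ_gauge (β : ℝ) (γ : (Fin d → ℤ) → G) (V : LinkZ d → G) (p : Fin d × Fin d)
    (J : List (Fin d)) (x : Fin d → ℤ) (a : Fin n) : cZ B β (gauge γ V) p J x a =
      ∑ b, (ld B).adm (γ x) a b * cZ B β V p J x b := by
  induction J generalizing x a with
  | nil =>
    have h1 : ∀ (j k : Fin d), plaqZ (gauge γ V) x j k = γ x * plaqZ V x j k * (γ x)⁻¹ := by
      intro j k
      unfold plaqZ gauge
      have e1 : x + Pi.single j 1 + Pi.single k 1 = x + Pi.single k 1 + Pi.single j (1:ℤ) := by abel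
      simp only [e1]
      group
    have h2 : ∀ (b : Fin n) (g : G), (trace ((B.X b)ᴴ * mt g)).re = -YM.fi (ld B) b g := by
      intro b g
      unfold YM.fi
      rw [YM.trX_apply]
      have h2 : (B.X b)ᴴ = -B.X b := (fm B).skewX b
      rw [h2, neg_mul, trace_neg, Complex.neg_re]
      rfl
    have h3 := YM.fi_rot (L := ld B) (γ x)⁻¹ (plaqZ V x p.1 p.2) a
    rw [inv_inv] at h3
    show Real.sqrt β * (trace ((B.X a)ᴴ * mt (plaqZ (gauge γ V) x p.1 p.2))).re =
      ∑ b, (ld B).adm (γ x) a b * (Real.sqrt β * (trace ((B.X b)ᴴ * mt (plaqZ V x p.1 p.2))).re)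
    rw [h1, h2, h3, ← Finset.sum_neg_distrib, Finset.mul_sum]
    refine Finset.sum_congr rfl fun b _ => ?_
    rw [h2, YM.adm_inv]; ring
  | cons i J ih =>
    show ∑ b, (ld B).adm (gauge γ V (x, i)) a b * cZ B β (gauge γ V) p J (x + Pi.single i 1) b -
      cZ B β (gauge γ V) p J x a = ∑ b, (ld B).adm (γ x) a b *
        (∑ c, (ld B).adm (V (x, i)) b c * cZ B β V p J (x + Pi.single i 1) c - cZ B β V p J x b)
    have e1 : gauge γ V (x, i) * γ (x + Pi.single i 1) = γ x * V (x, i) := by
      unfold gauge
      simp only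
      group
    have e2 : ∀ c, ∑ b, (ld B).adm (gauge γ V (x, i)) a b *
        (ld B).adm (γ (x + Pi.single i 1)) b c = ∑ b, (ld B).adm (γ x) a b *
        (ld B).adm (V (x, i)) b c := by
      intro c
      rw [← TH940.YM.adm_mul, ← TH940.YM.adm_mul, e1]
    have e4 : ∑ b, (ld B).adm (gauge γ V (x, i)) a b *
          ∑ c, (ld B).adm (γ (x + Pi.single i 1)) b c * cZ B β V p J (x + Pi.single i 1) c =
        ∑ b, (ld B).adm (γ x) a b *
          ∑ c, (ld B).adm (V (x, i)) b c * cZ B β V p J (x + Pi.single i 1) c := by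
      calc ∑ b, (ld B).adm (gauge γ V (x, i)) a b *
            ∑ c, (ld B).adm (γ (x + Pi.single i 1)) b c * cZ B β V p J (x + Pi.single i 1) c
          = ∑ c, (∑ b, (ld B).adm (gauge γ V (x, i)) a b *
              (ld B).adm (γ (x + Pi.single i 1)) b c) * cZ B β V p J (x + Pi.single i 1) c := by
            simp only [Finset.mul_sum, Finset.sum_mul]
            rw [Finset.sum_comm]
            exact Finset.sum_congr rfl fun γ _ => Finset.sum_congr rfl fun β _ => by ring
        _ = ∑ c, (∑ b, (ld B).adm (γ x) a b * (ld B).adm (V (x, i)) b c) *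
              cZ B β V p J (x + Pi.single i 1) c := by simp only [e2]
        _ = _ := by
            simp only [Finset.mul_sum, Finset.sum_mul]
            rw [Finset.sum_comm]
            exact Finset.sum_congr rfl fun γ _ => Finset.sum_congr rfl fun β _ => by ring
    have e5 : ∀ b, cZ B β (gauge γ V) p J (x + Pi.single i 1) b =
        ∑ c, (ld B).adm (γ (x + Pi.single i 1)) b c * cZ B β V p J (x + Pi.single i 1) c :=
      fun b => ih _ b
    have e6 : ∑ b, (ld B).adm (γ x) a b *
        (∑ c, (ld B).adm (V (x, i)) b c * cZ B β V p J (x + Pi.single i 1) c - cZ B β V p J x b) =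
        ∑ b, (ld B).adm (γ x) a b *
          ∑ c, (ld B).adm (V (x, i)) b c * cZ B β V p J (x + Pi.single i 1) c -
        ∑ b, (ld B).adm (γ x) a b * cZ B β V p J x b := by
      rw [← Finset.sum_sub_distrib]
      exact Finset.sum_congr rfl fun b _ => mul_sub _ _ _
    rw [e6, ← e4, ih x a]
    simp only [e5]

lemma gauge_inv (O : Monomial G d) (β : ℝ) (x : Fin d → ℤ) (γ : (Fin d → ℤ) → G)
    (V : LinkZ d → G) : O.field B β x (gauge γ V) = O.field B β x V := by
  unfold Monomial.field
  rw [ordered_eq, ordered_eq]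
  simp only [cZ_gauge]
  exact TH311.YM_INV.t_INV n O.deg _ _ (fun b a => (ld B).adm (γ x) b a) _
    (fun b b' => YM.sum_adm_adm _ _ _) (fun c => T_inv B O (γ x) c)

end coordinates

section torus

variable [CompactSpace G] [SecondCountableTopology G] [MeasurableSpace G] [BorelSpace G]
  (B : LieBasis G n)

lemma cZ_lf [NeZero l] (β : ℝ) (U : YM.Ed d l → G) (p : Fin d × Fin d) (J : List (Fin d))
    (x : Fin d → ℤ) (a : Fin n) : cZ B β (YM.lf U) p J x a =
      -(Real.sqrt β * TH940.YM.cD (ld B) U J p (YM.zt l x) a) := by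
  induction J generalizing x a with
  | nil =>
    show Real.sqrt β * (trace ((B.X a)ᴴ * mt (plaqZ (YM.lf U) x p.1 p.2))).re =
      -(Real.sqrt β * YM.fi (ld B) a (YM.plqT U (YM.zt l x) p.1 p.2))
    rw [← YM.plz_lf]
    unfold YM.fi
    rw [YM.trX_apply]
    have h2 : (B.X a)ᴴ = -B.X a := (fm B).skewX a
    rw [h2, neg_mul, trace_neg, Complex.neg_re, mul_neg]
    rfl
  | cons i J ih =>
    show ∑ b, (ld B).adm (YM.lf U (x, i)) a b * cZ B β (YM.lf U) p J (x + Pi.single i 1) b -
      cZ B β (YM.lf U) p J x a = -(Real.sqrt β * (∑ b, (ld B).adm (U (YM.zt l x, i)) a b *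
        TH940.YM.cD (ld B) U J p (YM.zt l x + YM.eT i) b - TH940.YM.cD (ld B) U J p (YM.zt l x) a))
    simp only [ih, YM.zt_add]
    rw [mul_sub, Finset.mul_sum, neg_sub, sub_neg_eq_add, add_comm, sub_eq_add_neg,
      ← Finset.sum_neg_distrib]
    congr 1
    refine Finset.sum_congr rfl fun b _ => ?_
    have h1 : YM.lf U (x, i) = U (YM.zt l x, i) := rfl
    rw [h1]; ring

variable {k : ℕ}

/-- the directions of all factors -/
def jj (O : Fin k → Monomial G d) (u : TH940.YM.Lg fun r => (O r).deg) : List (Fin d) :=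
  (O u.1).J u.2

/-- the planes of all factors -/
def pp (O : Fin k → Monomial G d) (u : TH940.YM.Lg fun r => (O r).deg) : Fin d × Fin d :=
  (O u.1).p u.2

/-- the coefficients -/
def tt (O : Fin k → Monomial G d) (r : Fin k) (c : Fin (O r).deg → Fin n) : ℝ :=
  (O r).T fun j => B.X (c j)

lemma field_eq [NeZero l] (O : Fin k → Monomial G d) (β : ℝ) (y : Fin k → Fin d → ℤ) (r : Fin k)
    (U : YM.Ed d l → G) : (O r).field B β (y r) (YM.lf U) =
      TH940.YM.OB (ld B) β (jj O) (pp O) (tt B O) (fun r => YM.zt l (y r)) r U := by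
  unfold Monomial.field
  rw [ordered_eq]
  unfold TH940.YM.OB
  simp only [cZ_lf, latCov_eq]
  rfl

lemma scale_eq (O : Fin k → Monomial G d) (q : ℕ) : ∏ r, (O r).scale q =
    ((TH940.YM.al fun r => (O r).deg).map fun u => TH940.YM.sf d q (jj O u)).prod := by
  classical
  rw [← List.prod_toFinset _ TH940.YM.nodup_al]
  have h1 : (TH940.YM.al fun r => (O r).deg).toFinset = Finset.univ := by
    ext u
    simp only [List.mem_toFinset, Finset.mem_univ, iff_true]
    exact TH940.YM.mem_al u
  rw [h1, Fintype.prod_sigma]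
  rfl

lemma schwinger_eq (O : Fin k → Monomial G d) {x : Fin k → Fin d → ℝ}
    (hx : Function.Injective x) :
    schwinger B O x = TH940.YM.SI n (jj O) (pp O) (tt B O) x := by
  unfold schwinger TH940.YM.SI
  refine Finset.sum_congr rfl fun c _ => ?_
  congr 1
  rw [pairings_eq _ _ _ le_rfl]
  congr 1
  funext u v
  by_cases huv : u.1 = v.1
  · rw [if_pos huv, if_pos huv]
  · rw [if_neg huv, if_neg huv]
    unfold TH940.YM.AI
    by_cases hc : c u.1 u.2 = c v.1 v.2
    · rw [if_pos hc, if_pos hc, maxwellD_eq _ _ _ _ (sub_ne_zero.2 fun h => huv (hx h))]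
      rfl
    · rw [if_neg hc, if_neg hc]

end torus

section limit

variable [CompactSpace G] [SecondCountableTopology G] [MeasurableSpace G] [BorelSpace G]
  (μ : Measure G) [IsProbabilityMeasure μ] [μ.IsHaarMeasure] (B : LieBasis G n)

lemma mt_cont : Continuous (mt : G → Mt N) := continuous_subtype_val.comp continuous_subtype_val

lemma cZ_cont (β : ℝ) (p : Fin d × Fin d) (J : List (Fin d)) (x : Fin d → ℤ) (a : Fin n) :
    Continuous fun V : LinkZ d → G => cZ B β V p J x a := by
  have h : ∀ e : LinkZ d, Continuous fun V : LinkZ d → G => V e := fun e => continuous_apply e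
  induction J generalizing x a with
  | nil =>
    have hp : Continuous fun V : LinkZ d → G => plaqZ V x p.1 p.2 := by
      unfold plaqZ
      exact (((h _).mul (h _)).mul (h _).inv).mul (h _).inv
    refine continuous_const.mul (Complex.continuous_re.comp ?_)
    exact (continuous_const.matrix_mul (mt_cont.comp hp)).matrix_trace
  | cons i J ih =>
    exact (continuous_finsetSum _ fun b _ =>
      ((YM.adm_cont (L := ld B) b a).comp (h (x, i))).mul (ih _ _)).sub (ih _ _)

lemma wpr_cont {ι Z : Type*} [TopologicalSpace Z] (A : ι → ι → ℝ) {X : Z → ι → ℝ}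
    (hX : ∀ u, Continuous fun z => X z u) (m : ℕ) : ∀ L : List ι, L.length ≤ m →
    Continuous fun z => TH940.YM.wpr A (X z) L := by
  induction m with
  | zero =>
    intro L hL
    have : L = [] := List.length_eq_zero_iff.1 (by omega)
    subst this
    simp only [TH940.YM.wpr]
    exact continuous_const
  | succ m ih =>
    intro L hL
    cases L with
    | nil => simp only [TH940.YM.wpr]; exact continuous_const
    | cons a L =>
      simp only [TH940.YM.wpr]
      simp only [List.length_cons] at hL
      refine ((hX a).mul (ih L (by omega))).sub (continuous_finsetSum _ fun i _ =>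
        continuous_const.mul (ih _ ?_))
      have h1 := List.length_eraseIdx_of_lt i.isLt
      omega

lemma field_cont (O : Monomial G d) (β : ℝ) (x : Fin d → ℤ) : Continuous (O.field B β x) := by
  have h1 : O.field B β x = fun V : LinkZ d → G =>
      TH940.YM.WT (fun i j => latCov (O.J i) (O.p i) (O.J j) (O.p j))
        (fun c => O.T fun j => B.X (c j)) (fun j a => cZ B β V (O.p j) (O.J j) x a) := by
    funext V
    exact ordered_eq B O β latCov x V
  rw [h1]
  unfold TH940.YM.WT
  refine continuous_finsetSum _ fun c _ => continuous_const.mul ?_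
  exact wpr_cont _ (fun j => cZ_cont B β _ _ _ _) _ _ le_rfl

end limit

/-- **The Schwinger functions of all gauge invariant local polynomials.** -/
theorem result {N n d : ℕ} (hd : 3 ≤ d) (G : Subgroup (UU N)) (hG : IsClosed (G : Set (UU N)))
    [MeasurableSpace G] [BorelSpace G] (μ : Measure G) [IsProbabilityMeasure μ] [μ.IsHaarMeasure]
    (B : LieBasis G n) :
    (∀ (O : Monomial G d) (β : ℝ) (x : Fin d → ℤ) (γ : (Fin d → ℤ) → G) (V : LinkZ d → G),
      O.field B β x (gauge γ V) = O.field B β x V) ∧
    (∀ (O : Monomial G d) (β : ℝ) (x : Fin d → ℤ) (V : LinkZ d → G),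
      O.ordered B β (fun _ _ _ _ => 0) x V = O.bare B β x V) ∧
    ∀ (k : ℕ) (O : Fin k → Monomial G d), ∃ K : ℕ,
      ∀ x : Fin k → Fin d → ℝ, Function.Injective x → ∀ ε : ℝ, 0 < ε →
      ∃ q₀ : ℕ, ∀ q : ℕ, q₀ ≤ q → ∀ β : ℝ, (q : ℝ) ^ K ≤ β →
        (∀ (l : ℕ) [NeZero l], Even l → β ≤ l →
          |(∏ r, (O r).scale q) * expect l μ β (fun V => ∏ r, (O r).field B β (lat q (x r)) V) -
            schwinger B O x| ≤ ε) ∧
        (∀ ν : Measure (LinkZ d → G), IsInfVol μ β ν →
          |(∏ r, (O r).scale q) * ∫ V, ∏ r, (O r).field B β (lat q (x r)) V ∂ν -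
            schwinger B O x| ≤ ε) ∧
        ∃ ν : Measure (LinkZ d → G), IsInfVol μ β ν := by
  have : CompactSpace G := by
    have h1 : IsCompact (G : Set (UU N)) := hG.isCompact
    exact isCompact_iff_compactSpace.1 h1
  have h00 : SecondCountableTopology (UU N) := TopologicalSpace.Subtype.secondCountableTopology _
  have : SecondCountableTopology G := TopologicalSpace.Subtype.secondCountableTopology _
  have := right_inv μ
  have := inv_inv' μ
  refine ⟨fun O β x γ V => gauge_inv B O β x γ V, fun O β x V => bare_eq B O β x V,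
    fun k O => ?_⟩
  obtain ⟨K, hK⟩ := TH940.YM.schwJ μ (L := ld B) hd SCH.a_B2 SCH.a_TR
    (W778.SCH.W1.t_W1 W933.SCH.t_ISS) SCH.a_HAF TH500.YM_WICK.t_W3 TH500.YM_WICK.t_W4
    TH311.YM_INV.t_INV TH311.YM_KERJ.t_KERJ (jj O)
  refine ⟨K, fun x hx ε hε => ?_⟩
  obtain ⟨q₀, hq₀⟩ := hK (pp O) (fun u => (O u.1).plane u.2) (tt B O)
    (fun r g c => T_inv B (O r) g c) x hx ε hε
  refine ⟨max q₀ 1, fun q hq β hβ => ?_⟩
  have hcont : ∀ r, Continuous ((O r).field B β (lat q (x r))) := fun r => field_cont B _ _ _
  have hfin : ∀ (l : ℕ) [NeZero l], Even l → β ≤ l →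
      |(∏ r, (O r).scale q) * expect l μ β (fun V => ∏ r, (O r).field B β (lat q (x r)) V) -
        schwinger B O x| ≤ ε := by
    intro l _ hl hβl
    obtain ⟨m, rfl⟩ := even_iff_two_dvd.1 hl
    haveI hm0 : NeZero m := ⟨by
      rintro rfl
      exact (NeZero.ne (2 * 0)) rfl⟩
    have h1 := hq₀ q ((le_max_left _ _).trans hq) β hβ m (by push_cast at hβl; exact hβl)
    rw [schwinger_eq B O hx, scale_eq, expect_eq μ B]
    simp only [fun (r : Fin k) (U : YM.Ed d (2 * m) → G) =>
      field_eq B O β (fun r => lat q (x r)) r U]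
    exact h1
  refine ⟨hfin, fun ν hν => ?_, exists_infVol μ B β⟩
  obtain ⟨sq, hsq, hlim⟩ := hν.lim
  have hc := hlim (fun V => ∏ r, (O r).field B β (lat q (x r)) V)
    (continuous_finsetProd _ fun r _ => hcont r)
  refine le_of_tendsto (((hc.const_mul (∏ r, (O r).scale q)).sub_const (schwinger B O x)).abs) ?_
  obtain ⟨M, hM⟩ := exists_nat_ge β
  filter_upwards [hsq.eventually_ge_atTop M] with j hj
  refine hfin (2 * (sq j + 1)) (even_two_mul _) (hM.trans ?_)
  exact_mod_cast (by omega : M ≤ 2 * (sq j + 1))

end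

end Pool.Agent.Results.MP_7f377f_mp.LocalPolynomials
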