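import Mathlib
import Pool.Agent.H906R3.YM.Conc
import Pool.Agent.W793.YM.Inf
import Pool.Agent.TH618.YM.Cartan
import Pool.Agent.TH618.YM.Pot
import Pool.Agent.TH190.YV.Low

/-!
# Lattice Yang-Mills theory: the static quark potential at weak coupling

Wilson's lattice gauge theory in dimension `d ≥ 3` with gauge group an irreducible closed subgroup
`G` of `U(N)` at the inverse coupling `β`, in the infinite volume. For every infinite volume limit
`ν` of the theories on the periodic lattices of even side the static potential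
`V(R) = - lim_T (1/T) log ⟨(1/N) Re tr U(loop of sides R, T)⟩` exists, and for all large `β`, with
`κ = 1 / (672 d + 1128)`, it is Coulomb's up to a relative error `O(β ^ (-κ))`:
`|V(R) - (dim G / (N β)) (G(0) - G(R e))| ≤ C β ^ (-1-κ)` for all `R ≤ β ^ κ`, with `G` the Green
function of the Laplacian on `ℤ^(d-1)`. The loops of all sides `T` and `R ≤ β ^ κ` satisfy
`⟨(1/N) Re tr U(loop)⟩ ≤ exp (- T ((dim G / (N β)) (G(0) - G(R e)) - C β ^ (-1-κ)))`.
-/

open MeasureTheory Matrix Filter
open scoped Matrix.Norms.Frobenius Topology ContDiff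

namespace Pool.Agent.Results.MP_7f377f_mp.StaticPotential

set_option linter.unusedSectionVars false

noncomputable section

/-- Complex `N × N` matrices. -/
abbrev Mt (N : ℕ) := Matrix (Fin N) (Fin N) ℂ

/-- The unitary group `U(N)`. -/
abbrev UU (N : ℕ) := Matrix.unitaryGroup (Fin N) ℂ

/-- The matrix of an element of a subgroup of `U(N)`. -/
def mt {N : ℕ} {G : Subgroup (UU N)} (g : G) : Mt N := ((g : UU N) : Mt N)

/-- The dimension of `G`: the dimension of the real space spanned by all matrices `Y` with
`exp (t Y) ∈ G` for all real `t`. -/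
def dimG {N : ℕ} (G : Subgroup (UU N)) : ℕ :=
  Module.finrank ℝ (Submodule.span ℝ {Y : Mt N | ∀ t : ℝ, ∃ g : G, mt g = NormedSpace.exp (t • Y)})

/-- `G` acts irreducibly on `ℂ^N`: the matrices which commute with `G` are scalar. -/
def Irreducible {N : ℕ} (G : Subgroup (UU N)) : Prop :=
  ∀ M : Mt N, (∀ g : G, mt g * M = M * mt g) → ∃ c : ℂ, M = c • (1 : Mt N)

/-- Links of the periodic lattice `(ℤ/l)^d`: base point and direction. -/
abbrev Link (d l : ℕ) := (Fin d → ZMod l) × Fin d

/-- Links of the lattice `ℤ^d`: base point and direction. -/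
abbrev LinkZ (d : ℕ) := (Fin d → ℤ) × Fin d

section

variable {N n d l : ℕ} {G : Subgroup (UU N)}

/-- The product of the link variables around the plaquette at `x` in the directions `i`, `j`. -/
def plaq (U : Link d l → G) (x : Fin d → ZMod l) (i j : Fin d) : G :=
  U (x, i) * U (x + Pi.single i 1, j) * (U (x + Pi.single j 1, i))⁻¹ * (U (x, j))⁻¹

/-- The Wilson action `∑_p Re tr (1 - U_p)`, the sum over the plaquettes. -/
def action [NeZero l] (U : Link d l → G) : ℝ :=
  ∑ x : Fin d → ZMod l, ∑ i : Fin d, ∑ j : Fin d,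
    if i < j then (trace (1 - mt (plaq U x i j))).re else 0

/-- The periodic extension of a configuration. -/
def per (U : Link d l → G) : LinkZ d → G := fun e => U (fun i => (e.1 i : ZMod l), e.2)

/-- The expectation of `F` in the lattice Yang-Mills theory on `(ℤ/l)^d`, `μ` being the Haar
measure. -/
def expect (l : ℕ) [NeZero l] [MeasurableSpace G] (μ : Measure G) (β : ℝ)
    (F : (LinkZ d → G) → ℝ) : ℝ :=
  (∫ U : Link d l → G, F (per U) * Real.exp (-(β * action U)) ∂(Measure.pi fun _ => μ)) /
    ∫ U : Link d l → G, Real.exp (-(β * action U)) ∂(Measure.pi fun _ => μ)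

/-- `ν` is an infinite volume limit (weak limit along a subsequence) of the theories on the tori of
even side at inverse coupling `β`. -/
structure IsInfVol [MeasurableSpace G] (μ : Measure G) (β : ℝ)
    (ν : Measure (LinkZ d → G)) : Prop where
  prob : IsProbabilityMeasure ν
  lim : ∃ s : ℕ → ℕ, Tendsto s atTop atTop ∧ ∀ F : (LinkZ d → G) → ℝ, Continuous F →
    Tendsto (fun j => expect (2 * (s j + 1)) μ β F) atTop (𝓝 (∫ V, F V ∂ν))

/-- The product of the link variables along the path of `k` steps in the direction `i` from `x`. -/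
def line (V : LinkZ d → G) (i : Fin d) : ℕ → (Fin d → ℤ) → G
  | 0, _ => 1
  | k + 1, x => V (x, i) * line V i k (x + Pi.single i 1)

/-- The product of the link variables around the rectangle with corner `x` and with the sides `R`
in the direction `i` and `T` in the direction `j`. -/
def loop (V : LinkZ d → G) (x : Fin d → ℤ) (i j : Fin d) (R T : ℕ) : G :=
  line V i R x * line V j T (x + Pi.single i (R : ℤ)) *
    (line V i R (x + Pi.single j (T : ℤ)))⁻¹ * (line V j T x)⁻¹

/-- The Wilson loop: the expectation of `(1/N) Re tr` of the product around the rectangle. -/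
def wilson [MeasurableSpace G] (ν : Measure (LinkZ d → G)) (x : Fin d → ℤ) (i j : Fin d)
    (R T : ℕ) : ℝ := ∫ V, (trace (mt (loop V x i j R T))).re / N ∂ν

end

/-- The Coulomb potential `G(0) - G(R e_i)` of the lattice `ℤ^(d-1)` of the directions `k ≠ j`, with
`G` the Green function of `-Δ`, as an integral over the momenta `2 π u` (which do not enter in the
direction `j`). -/
def coulomb {d : ℕ} (i j : Fin d) (R : ℕ) : ℝ :=
  ∫ u in Set.pi Set.univ (fun _ : Fin d => Set.Icc (0 : ℝ) 1),
    (1 - Real.cos (2 * Real.pi * R * u i)) /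
      ∑ k, if k = j then 0 else 2 * (1 - Real.cos (2 * Real.pi * u k))

open Pool.Agent.H906R3 Pool.Agent.W793 Pool.Agent.TH618

variable {N n d l : ℕ} {G : Subgroup (UU N)}

/-- A Haar probability measure is invariant under right multiplications. -/
lemma right_inv {H : Type*} [Group H] [TopologicalSpace H] [IsTopologicalGroup H]
    [CompactSpace H] [MeasurableSpace H] [BorelSpace H] (μ : Measure H)
    [IsProbabilityMeasure μ] [μ.IsHaarMeasure] : μ.IsMulRightInvariant := by
  refine ⟨fun g => ?_⟩
  have h1 : IsProbabilityMeasure (Measure.map (fun x => x * g) μ) :=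
    Measure.isProbabilityMeasure_map (measurable_mul_const g).aemeasurable
  exact Measure.isHaarMeasure_eq_of_isProbabilityMeasure _ _

/-- A Haar probability measure is invariant under the inversion. -/
lemma inv_inv' {H : Type*} [Group H] [TopologicalSpace H] [IsTopologicalGroup H]
    [CompactSpace H] [MeasurableSpace H] [BorelSpace H] (μ : Measure H)
    [IsProbabilityMeasure μ] [μ.IsHaarMeasure] : μ.IsInvInvariant := by
  have hr := right_inv μ
  refine ⟨?_⟩
  have h1 : IsProbabilityMeasure μ.inv :=
    Measure.isProbabilityMeasure_map measurable_inv.aemeasurable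
  have h2 : μ.inv.IsMulLeftInvariant := inferInstance
  have h3 : μ.inv.IsHaarMeasure :=
    Measure.isHaarMeasure_of_isCompact_nonempty_interior μ.inv Set.univ isCompact_univ
      (by simp) (by simp) (by simp)
  exact Measure.isHaarMeasure_eq_of_isProbabilityMeasure _ _

lemma action_eq [NeZero l] (B : YM.Frame G n) (U : Link d l → G) :
    action U = YM.act B.toLD U := rfl

lemma dim_eq (B : YM.Frame G n) : dimG G = n := by
  have hli : LinearIndependent ℝ B.X := by
    rw [Fintype.linearIndependent_iff]
    intro c hc a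
    have h1 : (trace ((B.X a)ᴴ * ∑ b, c b • B.X b)).re = c a := by
      rw [Finset.mul_sum, trace_sum, Complex.re_sum]
      have h2 : ∀ b, (trace ((B.X a)ᴴ * (c b • B.X b))).re = if a = b then c b else 0 := by
        intro b
        rw [Matrix.mul_smul, trace_smul, Complex.smul_re, B.orth, smul_eq_mul, mul_ite, mul_one,
          mul_zero]
      simp only [h2]
      rw [Finset.sum_ite_eq Finset.univ a, if_pos (Finset.mem_univ a)]
    rw [hc, mul_zero, trace_zero] at h1
    exact h1.symm
  have hspan : Submodule.span ℝ {Y : Mt N | ∀ t : ℝ, ∃ g : G, mt g = NormedSpace.exp (t • Y)} =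
      Submodule.span ℝ (Set.range B.X) := by
    refine le_antisymm (Submodule.span_le.2 fun Y hY => B.full Y hY) (Submodule.span_le.2 ?_)
    rintro _ ⟨a, rfl⟩
    exact Submodule.subset_span fun t => ⟨B.ex a t, B.ex_eq a t⟩
  unfold dimG
  rw [hspan, finrank_span_eq_card hli, Fintype.card_fin]

section bridge

variable [CompactSpace G] [SecondCountableTopology G] [MeasurableSpace G] [BorelSpace G]
  (μ : Measure G) [IsProbabilityMeasure μ] [μ.IsHaarMeasure] (B : YM.Frame G n)

lemma expect_eq [NeZero l] (β : ℝ) (F : (LinkZ d → G) → ℝ) : expect l μ β F =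
    YM.EX μ B.toLD β (fun U : YM.Ed d l → G => F (YM.lf U)) := by
  unfold expect YM.EX YM.Zt
  simp only [one_mul]
  rfl

include B in
lemma action_cont [NeZero l] : Continuous (action : (Link d l → G) → ℝ) :=
  YM.act_cont (L := B.toLD)

include B in
/-- existence of infinite volume limits -/
lemma exists_infVol (β : ℝ) : ∃ ν : Measure (LinkZ d → G), IsInfVol μ β ν := by
  have hP : ∀ j : ℕ, ∃ P : ProbabilityMeasure (LinkZ d → G),
      ∀ F : (LinkZ d → G) → ℝ, Continuous F →
        ∫ V, F V ∂(P : Measure (LinkZ d → G)) = expect (2 * (j + 1)) μ β F := by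
    intro j
    have hper : Continuous (per : (Link d (2 * (j + 1)) → G) → LinkZ d → G) :=
      continuous_pi fun e => continuous_apply _
    have hexp : Continuous fun U : Link d (2 * (j + 1)) → G =>
        Real.exp (-(β * action U)) :=
      Real.continuous_exp.comp (continuous_const.mul (action_cont B)).neg
    have hint : Integrable (fun U : Link d (2 * (j + 1)) → G =>
        Real.exp (-(β * action U))) (Measure.pi fun _ => μ) :=
      hexp.integrable_of_hasCompactSupport (HasCompactSupport.of_compactSpace _)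
    have h1 := isProbabilityMeasure_tilted (f := fun U : Link d (2 * (j + 1)) → G =>
      -(β * action U)) hint
    refine ⟨⟨((Measure.pi fun _ => μ).tilted fun U : Link d (2 * (j + 1)) → G =>
      -(β * action U)).map per, Measure.isProbabilityMeasure_map hper.aemeasurable⟩,
      fun F hF => ?_⟩
    show ∫ V, F V ∂(((Measure.pi fun _ => μ).tilted fun U : Link d (2 * (j + 1)) → G =>
      -(β * action U)).map per) = _
    rw [integral_map hper.aemeasurable hF.aestronglyMeasurable, integral_tilted]
    unfold expect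
    rw [← integral_div]
    refine integral_congr_ae (Filter.Eventually.of_forall fun U => ?_)
    simp only [smul_eq_mul]
    ring
  choose P hP using hP
  obtain ⟨ν, s, hs, hlim⟩ := CompactSpace.tendsto_subseq P
  refine ⟨ν, ⟨inferInstance, s, hs.tendsto_atTop, fun F hF => ?_⟩⟩
  have h1 := (ProbabilityMeasure.tendsto_iff_forall_integral_tendsto.1 hlim)
    (BoundedContinuousFunction.mkOfCompact ⟨F, hF⟩)
  simp only [Function.comp_apply, BoundedContinuousFunction.mkOfCompact_apply,
    ContinuousMap.coe_mk] at h1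
  simpa only [hP _ F hF] using h1

/-- straight lines in a periodic configuration -/
lemma line_lf (U : YM.Ed d l → G) (i : Fin d) (k : ℕ) (x : Fin d → ℤ) :
    line (YM.lf U) i k x = YM.ln U i k (YM.zt l x) := by
  induction k generalizing x with
  | zero => rfl
  | succ k ih =>
    rw [YM.ln_succ]
    show YM.lf U (x, i) * line (YM.lf U) i k (x + Pi.single i 1) = _
    rw [ih, YM.zt_add]
    rfl

lemma zt_nsmul (x : Fin d → ℤ) (i : Fin d) (k : ℕ) :
    YM.zt l (x + Pi.single i (k : ℤ)) = YM.zt l x + k • YM.eT i := by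
  funext j
  unfold YM.zt YM.eT
  by_cases h : j = i
  · subst h; simp
  · simp [h]

lemma loop_lf (U : YM.Ed d l → G) (x : Fin d → ℤ) (i j : Fin d) (R T : ℕ) :
    loop (YM.lf U) x i j R T = YM.rect U (YM.zt l x) i j R T := by
  unfold loop YM.rect
  rw [line_lf, line_lf, line_lf, line_lf, zt_nsmul, zt_nsmul]

lemma line_cont (i : Fin d) (k : ℕ) (x : Fin d → ℤ) :
    Continuous fun V : LinkZ d → G => line V i k x := by
  induction k generalizing x with
  | zero => exact continuous_const
  | succ k ih => exact (continuous_apply _).mul (ih _)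

lemma loop_cont (x : Fin d → ℤ) (i j : Fin d) (R T : ℕ) :
    Continuous fun V : LinkZ d → G => (trace (mt (loop V x i j R T))).re / N := by
  have h1 : Continuous fun V : LinkZ d → G => loop V x i j R T :=
    (((line_cont _ _ _).mul (line_cont _ _ _)).mul (line_cont _ _ _).inv).mul (line_cont _ _ _).inv
  have h2 : Continuous (mt : G → Mt N) := continuous_subtype_val.comp continuous_subtype_val
  exact (Complex.continuous_re.comp (h2.comp h1).matrix_trace).div_const _

lemma expect_loop [NeZero l] (β : ℝ) (x : Fin d → ℤ) (i j : Fin d) (R T : ℕ) :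
    expect l μ β (fun V : LinkZ d → G => (trace (mt (loop V x i j R T))).re / N) =
      YM.EX μ B.toLD β (fun U : YM.Ed d l → G => YM.rt B.toLD (YM.rect U 0 i j R T)) / N := by
  have := right_inv μ
  have := inv_inv' μ
  rw [expect_eq μ B]
  have h1 : (fun U : YM.Ed d l → G => (trace (mt (loop (YM.lf U) x i j R T))).re / N) =
      fun U => (1 / (N : ℝ)) * YM.rt B.toLD (YM.rect (YM.tr (YM.zt l x) U) 0 i j R T) := by
    funext U
    rw [loop_lf, YM.rect_tr, zero_add, div_eq_mul_one_div, mul_comm]
    rfl
  rw [h1, YM.EX_smul, YM.EX_tr μ (YM.zt l x)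
    (fun U : YM.Ed d l → G => YM.rt B.toLD (YM.rect U 0 i j R T))]
  ring

end bridge

lemma coul_zero {i j : Fin d} : YM.coul i j 0 = 0 := by
  unfold YM.coul YM.cint
  simp

theorem result {N d : ℕ} (hN : 1 ≤ N) (hd : 3 ≤ d) (G : Subgroup (UU N))
    (hG : IsClosed (G : Set (UU N))) (hirr : Irreducible G) [MeasurableSpace G] [BorelSpace G]
    (μ : Measure G) [IsProbabilityMeasure μ] [μ.IsHaarMeasure] :
    ∃ C β₀ : ℝ, 0 < C ∧ 0 < β₀ ∧ ∀ β : ℝ, β₀ ≤ β →
      (∀ ν : Measure (LinkZ d → G), IsInfVol μ β ν → ∀ i j : Fin d, i ≠ j →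
        (∀ (x : Fin d → ℤ) (R T : ℕ), 0 < wilson ν x i j R T) ∧
        (∀ (x : Fin d → ℤ) (R T : ℕ), (R : ℝ) ≤ β ^ (1 / (672 * d + 1128) : ℝ) →
          wilson ν x i j R T ≤ Real.exp (-(T * (dimG G / (N * β) * coulomb i j R -
            C * β ^ (-(1 + 1 / (672 * d + 1128)) : ℝ))))) ∧
        ∃ V : ℕ → ℝ,
          (∀ (x : Fin d → ℤ) (R : ℕ), Tendsto (fun T : ℕ => -Real.log (wilson ν x i j R T) / T)
            atTop (𝓝 (V R))) ∧
          ∀ R : ℕ, (R : ℝ) ≤ β ^ (1 / (672 * d + 1128) : ℝ) →
            |V R - dimG G / (N * β) * coulomb i j R| ≤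
              C * β ^ (-(1 + 1 / (672 * d + 1128)) : ℝ)) ∧
      ∃ ν : Measure (LinkZ d → G), IsInfVol μ β ν := by
  have : CompactSpace G := by
    have h1 : IsCompact (G : Set (UU N)) := hG.isCompact
    exact isCompact_iff_compactSpace.1 h1
  have h00 : SecondCountableTopology (UU N) := TopologicalSpace.Subtype.secondCountableTopology _
  have : SecondCountableTopology G := TopologicalSpace.Subtype.secondCountableTopology _
  have := right_inv μ
  have := inv_inv' μ
  obtain ⟨n, ⟨B⟩⟩ := YM.exists_frame hG
  obtain ⟨C0, hC0, hcar⟩ := YM.cartan' B hG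
  have hcas := TH190.YV.cas_eq (L := B.toLD) hN fun M hM => hirr M fun g => hM g
  obtain ⟨C1, β₁, hC1, hβ₁, hup⟩ := YM.pot_main μ (L := B.toLD) (d := d) hN hd hC0 hcar
  obtain ⟨C2, β₂, hC2, hβ₂, hlow⟩ := TH190.YV.pot_low μ (L := B.toLD) (d := d) hN hcas hd
  rw [dim_eq B]
  refine ⟨C1 + C2, max (max β₁ β₂) 1, by positivity, by positivity, fun β hβ =>
    ⟨fun ν hν i j hij => ?_, exists_infVol μ B β⟩⟩
  have hβ1 : β₁ ≤ β := ((le_max_left _ _).trans (le_max_left _ _)).trans hβ
  have hβ2 : β₂ ≤ β := ((le_max_right _ _).trans (le_max_left _ _)).trans hβ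
  have hβ3 : 1 ≤ β := (le_max_right _ _).trans hβ
  have hβ0 : 0 < β := by linarith
  obtain ⟨s, hs, hlim⟩ := hν.lim
  have hw : ∀ (x : Fin d → ℤ) (R T : ℕ),
      Tendsto (fun k => YM.wR2 μ B.toLD (s k + 1) β i j R T) atTop (𝓝 (wilson ν x i j R T)) := by
    intro x R T
    refine (hlim _ (loop_cont x i j R T)).congr fun k => ?_
    exact expect_loop μ B β x i j R T
  have hx : ∀ (x : Fin d → ℤ) (R T : ℕ), wilson ν x i j R T = wilson ν 0 i j R T := fun x R T =>
    tendsto_nhds_unique (hw x R T) (hw 0 R T)
  obtain ⟨hpos, P, σ, h1, h2, h3, h4, h5⟩ := hup β hβ1 i j hij (fun R T => wilson ν 0 i j R T) s hs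
    (fun R T => hw 0 R T)
  have hE0 : 0 < β ^ (-(1 + 1 / (672 * d + 1128)) : ℝ) := by positivity
  -- the loops
  have hW : ∀ R T : ℕ, (R : ℝ) ≤ β ^ (1 / (672 * d + 1128) : ℝ) →
      wilson ν 0 i j R T ≤ Real.exp (-(T * (n / (N * β) * coulomb i j R -
        C2 * β ^ (-(1 + 1 / (672 * d + 1128)) : ℝ)))) := by
    intro R T hR
    rcases Nat.eq_zero_or_pos R with h0 | h0
    · subst h0
      have e1 : wilson ν 0 i j 0 T = 1 := by
        refine tendsto_nhds_unique (hw 0 0 T) ?_
        simp only [YM.wR2_zero μ hN]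
        exact tendsto_const_nhds
      have e2 : coulomb i j 0 = 0 := coul_zero
      rw [e1, e2, mul_zero, zero_sub, mul_neg, neg_neg]
      exact Real.one_le_exp (by positivity)
    · exact hlow β hβ2 i j hij (fun R T => wilson ν 0 i j R T) s hs (fun R T => hw 0 R T) R h0 hR T
  refine ⟨fun x R T => by rw [hx]; exact hpos R T, fun x R T hR => ?_, P, fun x R => ?_,
    fun R hR => ?_⟩
  · rw [hx]
    refine (hW R T hR).trans ?_
    rw [Real.exp_le_exp, neg_le_neg_iff]
    refine mul_le_mul_of_nonneg_left ?_ (Nat.cast_nonneg _)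
    have := mul_pos hC1 hE0
    linarith
  · simp only [hx x]
    exact h1 R
  · have e1 := h3 R hR
    have e2 : n / (N * β) * coulomb i j R - C2 * β ^ (-(1 + 1 / (672 * d + 1128)) : ℝ) ≤ P R := by
      refine ge_of_tendsto (h1 R) ?_
      filter_upwards [Filter.eventually_ge_atTop 1] with T hT
      have hT0 : (0 : ℝ) < T := by exact_mod_cast hT
      rw [le_div_iff₀ hT0]
      have f1 := Real.log_le_log (hpos R T) (hW R T hR)
      rw [Real.log_exp] at f1
      linarith
    have e3 : P R ≤ n / (N * β) * coulomb i j R +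
        C1 * β ^ (-(1 + 1 / (672 * d + 1128)) : ℝ) := e1
    have f1 := mul_pos hC1 hE0
    have f2 := mul_pos hC2 hE0
    rw [abs_le]
    constructor <;> linarith

end

end Pool.Agent.Results.MP_7f377f_mp.StaticPotential
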