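import Mathlib
import Pool.Agent.H906R3.YM.Conc
import Pool.Agent.W793.SCH.All
import Pool.Agent.TH369.WL.Sub
import Pool.Agent.TH369.WL.Final

/-!
# Lattice Yang-Mills theory: the Wilson loops at weak coupling

Wilson's lattice gauge theory in dimension `d ≥ 3` with gauge group an arbitrary closed subgroup `G`
of `U(N)`, of dimension `n`, at the inverse coupling `β`, on the periodic lattices `(ℤ/l)^d` with
`l ≥ β` even and in all their infinite volume limits. For a closed lattice path `γ` let
`X(γ) = β (N - Re tr U_γ) - (n / 2) Q(γ, γ)`, where `Q(γ, γ')` is the double sum of the Green function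
of the lattice `ℤ^d` over the links of `γ` and `γ'`. For all `k` and `p` there are `K` and `C` such
that for `β ≥ R ^ K`, uniformly in the volume and in the loops `γ_1, ..., γ_k` of length at most `R`
and mutual distance at most `R`, the expectation of `X(γ_1) ⋯ X(γ_k)` differs by at most `C / R ^ p`
from that of the product of the Wick squares `(1 / 2) ∑_a :F^a(γ_r)²:`, where `F^a(γ)`, `a ≤ n`, are the
integrals of `n` independent free Maxwell fields over `γ`. For `k = 1` this is the asymptotics
`N - n Q(γ, γ) / (2 β)` of the mean of `Re tr U_γ`, for `k = 2` that of the covariance of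
`Re tr U_γ` and `Re tr U_γ'`, which is `n Q(γ, γ')² / (2 β²)`.
-/

open MeasureTheory Matrix Filter
open scoped Matrix.Norms.Frobenius Topology ContDiff

namespace Pool.Agent.Results.MP_7f377f_mp.WilsonLoopsWeakCoupling

set_option linter.unusedSectionVars false

noncomputable section

/-- Complex `N × N` matrices. -/
abbrev Mt (N : ℕ) := Matrix (Fin N) (Fin N) ℂ

/-- The unitary group `U(N)`. -/
abbrev UU (N : ℕ) := Matrix.unitaryGroup (Fin N) ℂ

/-- The matrix of an element of a subgroup of `U(N)`. -/
def mt {N : ℕ} {G : Subgroup (UU N)} (g : G) : Mt N := ((g : UU N) : Mt N)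

/-- An orthonormal basis `X` of the Lie algebra of `G`, that is of the real space of all matrices `Y`
with `exp (t Y) ∈ G` for all real `t`, with the scalar product `Re tr (Y* Z)`; `ex a t` is the
element `exp (t X_a)` of `G`. -/
structure LieBasis {N : ℕ} (G : Subgroup (UU N)) (n : ℕ) where
  X : Fin n → Mt N
  ex : Fin n → ℝ → G
  ex_eq : ∀ a t, mt (ex a t) = NormedSpace.exp (t • X a)
  orth : ∀ a b, (trace ((X a)ᴴ * X b)).re = if a = b then 1 else 0
  full : ∀ Y : Mt N, (∀ t : ℝ, ∃ g : G, mt g = NormedSpace.exp (t • Y)) →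
    Y ∈ Submodule.span ℝ (Set.range X)

/-- Links of the periodic lattice `(ℤ/l)^d`: base point and direction. -/
abbrev Link (d l : ℕ) := (Fin d → ZMod l) × Fin d

/-- Links of the lattice `ℤ^d`: base point and direction. -/
abbrev LinkZ (d : ℕ) := (Fin d → ℤ) × Fin d

section

variable {N n d l : ℕ} {G : Subgroup (UU N)}

/-- The product of the link variables around the plaquette at `x` in the directions `i`, `j`. -/
def plaq (U : Link d l → G) (x : Fin d → ZMod l) (i j : Fin d) : G :=
  U (x, i) * U (x + Pi.single i 1, j) * (U (x + Pi.single j 1, i))⁻¹ * (U (x, j))⁻¹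

/-- The Wilson action `∑_p Re tr (1 - U_p)`, the sum over the plaquettes. -/
def action [NeZero l] (U : Link d l → G) : ℝ :=
  ∑ x : Fin d → ZMod l, ∑ i : Fin d, ∑ j : Fin d,
    if i < j then (trace (1 - mt (plaq U x i j))).re else 0

/-- The periodic extension of a configuration. -/
def per (U : Link d l → G) : LinkZ d → G := fun e => U (fun i => (e.1 i : ZMod l), e.2)

/-- The expectation of `F` in the lattice Yang-Mills theory on `(ℤ/l)^d`, `μ` being the Haar
measure. -/
def expect (l : ℕ) [NeZero l] [MeasurableSpace G] (μ : Measure G) (β : ℝ)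
    (F : (LinkZ d → G) → ℝ) : ℝ :=
  (∫ U : Link d l → G, F (per U) * Real.exp (-(β * action U)) ∂(Measure.pi fun _ => μ)) /
    ∫ U : Link d l → G, Real.exp (-(β * action U)) ∂(Measure.pi fun _ => μ)

/-- `ν` is an infinite volume limit (weak limit along a subsequence) of the theories on the tori of
even side at inverse coupling `β`. -/
structure IsInfVol [MeasurableSpace G] (μ : Measure G) (β : ℝ)
    (ν : Measure (LinkZ d → G)) : Prop where
  prob : IsProbabilityMeasure ν
  lim : ∃ s : ℕ → ℕ, Tendsto s atTop atTop ∧ ∀ F : (LinkZ d → G) → ℝ, Continuous F →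
    Tendsto (fun j => expect (2 * (s j + 1)) μ β F) atTop (𝓝 (∫ V, F V ∂ν))

/-- The product of the link variables along the lattice path with the given steps which starts at
the given point. The step `(i, true)` leads from `x` to `x + e_i`, the step `(i, false)` leads from
`x` to `x - e_i`. -/
def hol (V : LinkZ d → G) : (Fin d → ℤ) → List (Fin d × Bool) → G
  | _, [] => 1
  | x, (i, true) :: p => V (x, i) * hol V (x + Pi.single i 1) p
  | x, (i, false) :: p => (V (x - Pi.single i 1, i))⁻¹ * hol V (x - Pi.single i 1) p

end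

/-- The end point of a lattice path. -/
def dest {d : ℕ} : (Fin d → ℤ) → List (Fin d × Bool) → (Fin d → ℤ)
  | x, [] => x
  | x, (i, true) :: p => dest (x + Pi.single i 1) p
  | x, (i, false) :: p => dest (x - Pi.single i 1) p

/-- The links of a lattice path, with the value `true` for the links which are passed in the
positive direction. -/
def links {d : ℕ} : (Fin d → ℤ) → List (Fin d × Bool) → List (LinkZ d × Bool)
  | _, [] => []
  | x, (i, true) :: p => ((x, i), true) :: links (x + Pi.single i 1) p
  | x, (i, false) :: p => ((x - Pi.single i 1, i), false) :: links (x - Pi.single i 1) p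

/-- Closed paths on the lattice `ℤ^d`. -/
structure Loop (d : ℕ) where
  base : Fin d → ℤ
  steps : List (Fin d × Bool)
  closed : dest base steps = base

/-- The length of a loop. -/
def Loop.length {d : ℕ} (γ : Loop d) : ℕ := γ.steps.length

/-- The Wilson loop variable `Re tr U_γ`. -/
def wilson {N d : ℕ} {G : Subgroup (UU N)} (γ : Loop d) (V : LinkZ d → G) : ℝ :=
  (trace (mt (hol V γ.base γ.steps))).re

/-- The transition probabilities of the lazy random walk on `ℤ^d`, which stays with probability
`1/2`. -/
def walk (d : ℕ) : ℕ → (Fin d → ℤ) → ℝ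
  | 0, z => if z = 0 then 1 else 0
  | k + 1, z => 1 / 2 * walk d k z + 1 / (4 * d : ℝ) *
      ∑ i, (walk d k (z + Pi.single i 1) + walk d k (z - Pi.single i 1))

/-- The Green function of `-Δ`, `Δ f(z) = ∑_i (f(z + e_i) + f(z - e_i) - 2 f(z))`, on `ℤ^d`. -/
def green (d : ℕ) (z : Fin d → ℤ) : ℝ := 1 / (4 * d : ℝ) * ∑' k, walk d k z

/-- The double sum of the Green function over the links of two loops, the covariance of the
integrals of the free Maxwell field over the loops. -/
def inter {d : ℕ} (γ γ' : Loop d) : ℝ :=
  ((links γ.base γ.steps).map fun e => ((links γ'.base γ'.steps).map fun e' =>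
    if e.1.2 = e'.1.2 then (if e.2 then 1 else -1) * (if e'.2 then 1 else -1) *
      green d (e.1.1 - e'.1.1) else 0).sum).sum

/-- The sum over all pairings of the elements of the list of the products of the entries `A`. -/
def pairings {ι : Type*} (A : ι → ι → ℝ) : List ι → ℝ
  | [] => 1
  | a :: l => ∑ i : Fin l.length, A a (l.get i) * pairings A (l.eraseIdx i)
termination_by l => l.length
decreasing_by
  simp only [List.length_cons]
  have := List.length_eraseIdx_of_lt i.isLt
  omega

/-- The `2 k` factors `(r, false)`, `(r, true)` of `k` quadratic fields. -/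
def factors (k : ℕ) : List (Fin k × Bool) :=
  (List.finRange k).flatMap fun r => [(r, false), (r, true)]

/-- The expectation of the product of the Wick squares `∑_a :F^a(γ_r)²:`, where `F^a(γ)`,
`a = 1, ..., n`, are the integrals of `n` independent free Maxwell fields over the loop `γ`: the sum
over the colours and over the pairings in which no field is paired with itself. -/
def wicks (n : ℕ) {d k : ℕ} (γ : Fin k → Loop d) : ℝ :=
  ∑ a : Fin k → Fin n, pairings (fun u v => if u.1 = v.1 then 0 else if a u.1 = a v.1 then
    inter (γ u.1) (γ v.1) else 0) (factors k)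

/-- The Wilson loop variable `X(γ) = β (N - Re tr U_γ) - (n / 2) Q(γ, γ)`, centred at the asymptotic
mean. -/
def loopVar {N d : ℕ} {G : Subgroup (UU N)} (n : ℕ) (β : ℝ) (γ : Loop d) (V : LinkZ d → G) : ℝ :=
  β * (N - wilson γ V) - n / 2 * inter γ γ

open Pool.Agent.H906R3 Pool.Agent.W793 Pool.Agent.TH369

variable {N n d l : ℕ} {G : Subgroup (UU N)}

/-- The same data in the form used by the helper files. -/
def fm (B : LieBasis G n) : YM.Frame G n where
  X := B.X
  ex := B.ex
  ex_eq := B.ex_eq
  orth := B.orth
  full := B.full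

/-- The abstract data. -/
def ld (B : LieBasis G n) : YM.LD G N n := (fm B).toLD

lemma action_eq [NeZero l] (B : LieBasis G n) (U : Link d l → G) :
    action U = YM.act (ld B) U := rfl

/-- A Haar probability measure is invariant under right multiplications. -/
lemma right_inv {H : Type*} [Group H] [TopologicalSpace H] [IsTopologicalGroup H]
    [CompactSpace H] [MeasurableSpace H] [BorelSpace H] (μ : Measure H)
    [IsProbabilityMeasure μ] [μ.IsHaarMeasure] : μ.IsMulRightInvariant := by
  refine ⟨fun g => ?_⟩
  have h1 : IsProbabilityMeasure (Measure.map (fun x => x * g) μ) :=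
    Measure.isProbabilityMeasure_map (measurable_mul_const g).aemeasurable
  exact Measure.isHaarMeasure_eq_of_isProbabilityMeasure _ _

/-- A Haar probability measure is invariant under the inversion. -/
lemma inv_inv' {H : Type*} [Group H] [TopologicalSpace H] [IsTopologicalGroup H]
    [CompactSpace H] [MeasurableSpace H] [BorelSpace H] (μ : Measure H)
    [IsProbabilityMeasure μ] [μ.IsHaarMeasure] : μ.IsInvInvariant := by
  have hr := right_inv μ
  refine ⟨?_⟩
  have h1 : IsProbabilityMeasure μ.inv :=
    Measure.isProbabilityMeasure_map measurable_inv.aemeasurable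
  have h2 : μ.inv.IsMulLeftInvariant := inferInstance
  have h3 : μ.inv.IsHaarMeasure :=
    Measure.isHaarMeasure_of_isCompact_nonempty_interior μ.inv Set.univ isCompact_univ
      (by simp) (by simp) (by simp)
  exact Measure.isHaarMeasure_eq_of_isProbabilityMeasure _ _

section bridge

variable [CompactSpace G] [SecondCountableTopology G] [MeasurableSpace G] [BorelSpace G]
  (μ : Measure G) [IsProbabilityMeasure μ] [μ.IsHaarMeasure] (B : LieBasis G n)

lemma expect_eq [NeZero l] (β : ℝ) (F : (LinkZ d → G) → ℝ) : expect l μ β F =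
    YM.EX μ (ld B) β (fun U : YM.Ed d l → G => F (YM.lf U)) := by
  unfold expect YM.EX YM.Zt
  simp only [one_mul]
  rfl

include B in
lemma action_cont [NeZero l] : Continuous (action : (Link d l → G) → ℝ) :=
  YM.act_cont (L := ld B)

include B in
/-- existence of infinite volume limits -/
lemma exists_infVol (β : ℝ) : ∃ ν : Measure (LinkZ d → G), IsInfVol μ β ν := by
  have hP : ∀ j : ℕ, ∃ P : ProbabilityMeasure (LinkZ d → G),
      ∀ F : (LinkZ d → G) → ℝ, Continuous F →
        ∫ V, F V ∂(P : Measure (LinkZ d → G)) = expect (2 * (j + 1)) μ β F := by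
    intro j
    have hper : Continuous (per : (Link d (2 * (j + 1)) → G) → LinkZ d → G) :=
      continuous_pi fun e => continuous_apply _
    have hexp : Continuous fun U : Link d (2 * (j + 1)) → G =>
        Real.exp (-(β * action U)) :=
      Real.continuous_exp.comp (continuous_const.mul (action_cont B)).neg
    have hint : Integrable (fun U : Link d (2 * (j + 1)) → G =>
        Real.exp (-(β * action U))) (Measure.pi fun _ => μ) :=
      hexp.integrable_of_hasCompactSupport (HasCompactSupport.of_compactSpace _)
    have h1 := isProbabilityMeasure_tilted (f := fun U : Link d (2 * (j + 1)) → G =>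
      -(β * action U)) hint
    refine ⟨⟨((Measure.pi fun _ => μ).tilted fun U : Link d (2 * (j + 1)) → G =>
      -(β * action U)).map per, Measure.isProbabilityMeasure_map hper.aemeasurable⟩,
      fun F hF => ?_⟩
    show ∫ V, F V ∂(((Measure.pi fun _ => μ).tilted fun U : Link d (2 * (j + 1)) → G =>
      -(β * action U)).map per) = _
    rw [integral_map hper.aemeasurable hF.aestronglyMeasurable, integral_tilted]
    unfold expect
    rw [← integral_div]
    refine integral_congr_ae (Filter.Eventually.of_forall fun U => ?_)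
    simp only [smul_eq_mul]
    ring
  choose P hP using hP
  obtain ⟨ν, s, hs, hlim⟩ := CompactSpace.tendsto_subseq P
  refine ⟨ν, ⟨inferInstance, s, hs.tendsto_atTop, fun F hF => ?_⟩⟩
  have h1 := (ProbabilityMeasure.tendsto_iff_forall_integral_tendsto.1 hlim)
    (BoundedContinuousFunction.mkOfCompact ⟨F, hF⟩)
  simp only [Function.comp_apply, BoundedContinuousFunction.mkOfCompact_apply,
    ContinuousMap.coe_mk] at h1
  simpa only [hP _ F hF] using h1

end bridge

lemma pairings_eq {ι : Type*} (A : ι → ι → ℝ) (m : ℕ) : ∀ L : List ι, L.length ≤ m →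
    pairings A L = SCH.haf A L := by
  induction m with
  | zero =>
    intro L hL
    have : L = [] := List.length_eq_zero_iff.1 (by omega)
    subst this
    simp only [pairings, SCH.haf]
  | succ m ih =>
    intro L hL
    cases L with
    | nil => simp only [pairings, SCH.haf]
    | cons a L =>
      simp only [pairings, SCH.haf]
      refine Finset.sum_congr rfl fun i _ => ?_
      rw [ih]
      have h1 := List.length_eraseIdx_of_lt i.isLt
      simp only [List.length_cons] at hL
      omega

lemma hol_eq (V : LinkZ d → G) (p : List (Fin d × Bool)) (x : Fin d → ℤ) :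
    hol V x p = YM.hol V x p := by
  induction p generalizing x with
  | nil => rfl
  | cons s p ih =>
    obtain ⟨i, s⟩ := s
    cases s with
    | true => simp only [hol, YM.hol, ih]
    | false => simp only [hol, YM.hol, ih]

lemma dest_eq (p : List (Fin d × Bool)) (x : Fin d → ℤ) : dest x p = YM.dest x p := by
  induction p generalizing x with
  | nil => rfl
  | cons s p ih =>
    obtain ⟨i, s⟩ := s
    cases s with
    | true => simp only [dest, YM.dest, ih]
    | false => simp only [dest, YM.dest, ih]

lemma links_eq (p : List (Fin d × Bool)) (x : Fin d → ℤ) : links x p = WL.lks x p := by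
  induction p generalizing x with
  | nil => rfl
  | cons s p ih =>
    obtain ⟨i, s⟩ := s
    cases s with
    | true => simp only [links, WL.lks, ih]
    | false => simp only [links, WL.lks, ih]

lemma walk_eq (k : ℕ) (z : Fin d → ℤ) : walk d k z = SCH.pk d k z := by
  induction k generalizing z with
  | zero => rfl
  | succ k ih => simp only [walk, SCH.pk, ih]

lemma green_eq (z : Fin d → ℤ) : green d z = SCH.green d z := by
  unfold green SCH.green
  simp only [walk_eq]

lemma inter_eq (γ γ' : Loop d) : inter γ γ' =
    WL.QK (SCH.green d) (WL.lks γ.base γ.steps) (WL.lks γ'.base γ'.steps) := by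
  unfold inter WL.QK WL.sg
  simp only [links_eq, green_eq]

lemma wicks_eq (n : ℕ) {k : ℕ} (γ : Fin k → Loop d) : wicks n γ = ∑ c : Fin k → Fin n,
    SCH.wick k (WL.AK (SCH.green d) (fun r => (γ r).base) (fun r => (γ r).steps) c) := by
  unfold wicks
  refine Finset.sum_congr rfl fun a _ => ?_
  rw [pairings_eq _ _ _ le_rfl]
  unfold SCH.wick WL.AK
  simp only [inter_eq]
  rfl

lemma pairings_four {ι : Type*} (A : ι → ι → ℝ) (x y z w : ι) :
    pairings A [x, y, z, w] = A x y * A z w + A x z * A y w + A x w * A y z := by
  have h2 : ∀ s t, pairings A [s, t] = A s t := by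
    intro s t
    simp [pairings]
  rw [pairings]
  show ∑ i : Fin 3, A x ([y, z, w].get i) * pairings A ([y, z, w].eraseIdx i) = _
  rw [Fin.sum_univ_three]
  show A x y * pairings A [z, w] + A x z * pairings A [y, w] + A x w * pairings A [y, z] = _
  rw [h2, h2, h2]

lemma wicks_two (n : ℕ) (γ : Fin 2 → Loop d) : wicks n γ = 2 * n * inter (γ 0) (γ 1) ^ 2 := by
  have h0 : ∀ a : Fin 2 → Fin n, pairings (fun u v => if u.1 = v.1 then 0 else
      if a u.1 = a v.1 then inter (γ u.1) (γ v.1) else 0) (factors 2) =
      if a 0 = a 1 then 2 * inter (γ 0) (γ 1) ^ 2 else 0 := by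
    intro a
    have h1 : factors 2 = [(0, false), (0, true), (1, false), (1, true)] := rfl
    rw [h1, pairings_four]
    by_cases h : a 0 = a 1
    · simp [h]; ring
    · simp [h]
  unfold wicks
  simp only [h0]
  rw [← Fintype.sum_equiv (finTwoArrowEquiv (Fin n)).symm
    (fun x : Fin n × Fin n => if x.1 = x.2 then 2 * inter (γ 0) (γ 1) ^ 2 else 0) _ fun x => rfl]
  rw [Fintype.sum_prod_type]
  simp only [Finset.sum_ite_eq, Finset.mem_univ, if_true, Finset.sum_const, Finset.card_univ,
    Fintype.card_fin, nsmul_eq_mul]
  ring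

lemma wilson_eq [NeZero l] (B : LieBasis G n) (β : ℝ) (γ : Loop d) (U : YM.Ed d l → G) :
    β * (N - wilson γ (YM.lf U)) = WL.Ab (ld B) β γ.base γ.steps U := by
  unfold wilson WL.Ab
  rw [hol_eq]
  have h1 : ∀ g : G, YM.we (ld B) g = N - (trace (mt g)).re := by
    intro g
    show (trace (1 - mt g)).re = _
    rw [trace_sub, trace_one, Complex.sub_re]
    simp
  rw [h1]

lemma wilson_cont (γ : Loop d) : Continuous (wilson γ : (LinkZ d → G) → ℝ) := by
  have h : ∀ (p : List (Fin d × Bool)) (x : Fin d → ℤ),
      Continuous fun V : LinkZ d → G => hol V x p := by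
    intro p
    induction p with
    | nil => intro x; exact continuous_const
    | cons s p ih =>
      intro x
      obtain ⟨i, s⟩ := s
      cases s with
      | true => exact (continuous_apply _).mul (ih _)
      | false => exact (continuous_apply _).inv.mul (ih _)
  have hm : Continuous (mt : G → Mt N) := continuous_subtype_val.comp continuous_subtype_val
  unfold wilson
  exact Complex.continuous_re.comp (hm.comp (h _ _)).matrix_trace


/-- For `k = 1` the limit vanishes. -/
lemma wicks_one (n : ℕ) (γ : Fin 1 → Loop d) : wicks n γ = 0 := by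
  unfold wicks
  refine Finset.sum_eq_zero fun a _ => ?_
  have h1 : factors 1 = [(0, false), (0, true)] := rfl
  rw [h1]
  simp [pairings]

theorem result {N n d : ℕ} (hd : 3 ≤ d) (G : Subgroup (UU N)) (hG : IsClosed (G : Set (UU N)))
    [MeasurableSpace G] [BorelSpace G] (μ : Measure G) [IsProbabilityMeasure μ] [μ.IsHaarMeasure]
    (B : LieBasis G n) (k p : ℕ) :
    ∃ (K R₀ : ℕ) (C : ℝ), ∀ R : ℕ, R₀ ≤ R → ∀ β : ℝ, (R : ℝ) ^ K ≤ β →
      (∀ γ : Fin k → Loop d, (∀ r, (γ r).length ≤ R) →
        (∀ r s i, |(γ r).base i - (γ s).base i| ≤ R) →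
        (∀ (l : ℕ) [NeZero l], Even l → β ≤ l →
          |expect l μ β (fun V => ∏ r, loopVar n β (γ r) V) - (1 / 2) ^ k * wicks n γ| ≤
            C / R ^ p) ∧
        (∀ ν : Measure (LinkZ d → G), IsInfVol μ β ν →
          |∫ V, ∏ r, loopVar n β (γ r) V ∂ν - (1 / 2) ^ k * wicks n γ| ≤ C / R ^ p)) ∧
      ∃ ν : Measure (LinkZ d → G), IsInfVol μ β ν := by
  have : CompactSpace G := by
    have h1 : IsCompact (G : Set (UU N)) := hG.isCompact
    exact isCompact_iff_compactSpace.1 h1
  have h00 : SecondCountableTopology (UU N) := TopologicalSpace.Subtype.secondCountableTopology _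
  have : SecondCountableTopology G := TopologicalSpace.Subtype.secondCountableTopology _
  have := right_inv μ
  have := inv_inv' μ
  have hW1 : SCH.S_W1 := Pool.Agent.W778.SCH.W1.t_W1 Pool.Agent.W933.SCH.t_ISS
  obtain ⟨Cq, hCq, hq⟩ := WL.we_quad hG (fm B)
  obtain ⟨e, q₀, C, hC, h⟩ := WL.wlk μ (L := ld B) hCq.le hq hd SCH.a_WC hW1
    Pool.Agent.W585.SCH.t_B1 SCH.a_TR SCH.a_HAF k p
  refine ⟨e, q₀, C, fun R hR β hβ => ⟨fun γ hγ hb => ?_, exists_infVol μ B β⟩⟩
  have hfin : ∀ (l : ℕ) [NeZero l], Even l → β ≤ l →
      |expect l μ β (fun V => ∏ r, loopVar n β (γ r) V) - (1 / 2) ^ k * wicks n γ| ≤ C / R ^ p := by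
    intro l _ hl hβl
    obtain ⟨m, rfl⟩ := even_iff_two_dvd.1 hl
    have hm0 : NeZero m := ⟨by
      rintro rfl
      exact (NeZero.ne (2 * 0)) rfl⟩
    obtain ⟨t, ht⟩ : ∃ t : Fin d → ℤ, ∀ r i, |(γ r).base i - t i| ≤ R := by
      rcases Nat.eq_zero_or_pos k with hk | hk
      · subst hk
        exact ⟨0, fun r => r.elim0⟩
      · exact ⟨(γ ⟨0, hk⟩).base, fun r i => hb r _ i⟩
    have h1 := h R hR β hβ m (by push_cast at hβl; exact hβl) (fun r => (γ r).base)
      (fun r => (γ r).steps) hγ (fun r => by rw [← dest_eq]; exact (γ r).closed) t ht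
    rw [expect_eq μ B, wicks_eq]
    have e1 : (fun U : YM.Ed d (2 * m) → G => ∏ r, loopVar n β (γ r) (YM.lf U)) = fun U =>
        ∏ r, (WL.Ab (ld B) β (γ r).base (γ r).steps U - n / 2 * WL.QK (SCH.green d)
          (WL.lks (γ r).base (γ r).steps) (WL.lks (γ r).base (γ r).steps)) := by
      funext U
      refine Finset.prod_congr rfl fun r _ => ?_
      unfold loopVar
      rw [wilson_eq B, inter_eq]
    rw [e1]
    exact h1
  refine ⟨hfin, fun ν hν => ?_⟩
  obtain ⟨sq, hsq, hlim⟩ := hν.lim
  have hc : Continuous fun V : LinkZ d → G => ∏ r, loopVar n β (γ r) V :=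
    continuous_finsetProd _ fun r _ => ((continuous_const.mul
      (continuous_const.sub (wilson_cont (γ r)))).sub continuous_const)
  refine le_of_tendsto (((hlim _ hc).sub_const ((1 / 2) ^ k * wicks n γ)).abs) ?_
  obtain ⟨M, hM⟩ := exists_nat_ge β
  filter_upwards [hsq.eventually_ge_atTop M] with j hj
  refine hfin (2 * (sq j + 1)) (even_two_mul _) (hM.trans ?_)
  exact_mod_cast (by omega : M ≤ 2 * (sq j + 1))

end

end Pool.Agent.Results.MP_7f377f_mp.WilsonLoopsWeakCoupling
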